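import Pool.Agent.W984.PH.Stm

set_option autoImplicit false

open Finset

namespace Pool.Agent.W310.PH

open Pool.Agent.W984.PH

variable {V : Type} [DecidableEq V]

theorem key (x : V → ℝ) (U : Finset V) (hx : ∀ v ∈ U, 0 ≤ x v) (j : ℕ) :
    (∑ v ∈ U, x v) * (((j : ℝ) + 1) * es x U (j + 1))
      ≤ (U.card : ℝ) * ∑ v ∈ U, (x v) ^ 2 * es x (U.erase v) j := by
  have h1 : ∑ u ∈ U, ∑ v ∈ U, (x u - x v) * (x u * es x (U.erase u) j - x v * es x (U.erase v) j)
      = 2 * ((U.card : ℝ) * ∑ v ∈ U, (x v) ^ 2 * es x (U.erase v) j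
        - (∑ v ∈ U, x v) * (((j : ℝ) + 1) * es x U (j + 1))) := by
    rw [← sum_es_erase x U j]
    have e1 : ∀ u v : V, (x u - x v) * (x u * es x (U.erase u) j - x v * es x (U.erase v) j)
        = (x u) ^ 2 * es x (U.erase u) j + (x v) ^ 2 * es x (U.erase v) j
          - x u * (x v * es x (U.erase v) j) - (x u * es x (U.erase u) j) * x v := by
      intro u v
      ring
    have e3 : ∀ (a b : V → ℝ), ∑ u ∈ U, ∑ v ∈ U, (a u + a v - x u * b v - b u * x v)
        = 2 * ((U.card : ℝ) * ∑ v ∈ U, a v - (∑ v ∈ U, x v) * ∑ v ∈ U, b v) := by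
      intro a b
      simp only [sum_sub_distrib, sum_add_distrib, ← mul_sum, ← sum_mul, sum_const,
        nsmul_eq_mul]
      ring
    simp only [e1]
    exact e3 (fun v => (x v) ^ 2 * es x (U.erase v) j) (fun v => x v * es x (U.erase v) j)
  have h2 : 0 ≤ ∑ u ∈ U, ∑ v ∈ U,
      (x u - x v) * (x u * es x (U.erase u) j - x v * es x (U.erase v) j) := by
    refine sum_nonneg fun u hu => sum_nonneg fun v hv => ?_
    by_cases huv : u = v
    · subst huv
      simp
    rcases j with _ | i
    · rw [es_zero, es_zero, mul_one, mul_one]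
      exact mul_self_nonneg _
    · have hv' : v ∈ U.erase u := mem_erase.mpr ⟨fun h => huv h.symm, hv⟩
      have hu' : u ∈ U.erase v := mem_erase.mpr ⟨huv, hu⟩
      rw [es_erase x (U.erase u) v hv' i, es_erase x (U.erase v) u hu' i,
        erase_right_comm (a := v) (b := u)]
      have h3 : 0 ≤ es x ((U.erase u).erase v) (i + 1) :=
        es_nonneg _ _ (fun w hw => hx w (mem_of_mem_erase (mem_of_mem_erase hw))) _
      have e2 : (x u - x v) * (x u * (es x ((U.erase u).erase v) (i + 1) +
          x v * es x ((U.erase u).erase v) i) - x v * (es x ((U.erase u).erase v) (i + 1) +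
          x u * es x ((U.erase u).erase v) i))
          = (x u - x v) ^ 2 * es x ((U.erase u).erase v) (i + 1) := by ring
      rw [e2]
      positivity
  linarith

theorem mac : S_MAC := by
  intro V _ x U hx hU r
  have hm : (0 : ℝ) < U.card := by exact_mod_cast hU
  have hX : 0 ≤ ∑ v ∈ U, x v := sum_nonneg hx
  have hfp0 : ∀ k : ℕ, U.card < k → fp k (1 / (U.card : ℝ)) = 0 := by
    intro k hk
    unfold fp
    refine prod_eq_zero (mem_range.mpr hk) ?_
    rw [mul_one_div, div_self hm.ne', sub_self]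
  have step : ∀ j : ℕ, ((j + 1).factorial : ℝ) * es x U (j + 1)
      ≤ fp (j + 1) (1 / (U.card : ℝ)) * (∑ v ∈ U, x v) ^ (j + 1) →
      ((j + 2).factorial : ℝ) * es x U (j + 2)
      ≤ fp (j + 2) (1 / (U.card : ℝ)) * (∑ v ∈ U, x v) ^ (j + 2) := by
    intro j ih
    by_cases hj : j + 1 ≤ U.card
    · have h1 := es_rec x U j
      have h2 := key x U hx j
      set X := ∑ v ∈ U, x v with hXd
      set A := ∑ v ∈ U, (x v) ^ 2 * es x (U.erase v) j
      have h3 : X * (((j : ℝ) + 1) * es x U (j + 1)) / U.card ≤ A := by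
        rw [div_le_iff₀ hm]; linarith
      have h4 : ((j : ℝ) + 2) * es x U (j + 2)
          ≤ X * es x U (j + 1) * (1 - ((j + 1 : ℕ) : ℝ) * (1 / U.card)) := by
        have e : X * es x U (j + 1) * (1 - ((j + 1 : ℕ) : ℝ) * (1 / U.card))
            = X * es x U (j + 1) - X * (((j : ℝ) + 1) * es x U (j + 1)) / U.card := by
          push_cast
          ring
        rw [e]
        linarith
      have h5 : 0 ≤ 1 - ((j + 1 : ℕ) : ℝ) * (1 / U.card) := by
        rw [mul_one_div, sub_nonneg, div_le_one hm]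
        exact_mod_cast hj
      rw [fp_succ (j + 1)]
      calc ((j + 2).factorial : ℝ) * es x U (j + 2)
          = ((j + 1).factorial : ℝ) * (((j : ℝ) + 2) * es x U (j + 2)) := by
            rw [Nat.factorial_succ (j + 1)]
            push_cast
            ring
        _ ≤ ((j + 1).factorial : ℝ) * (X * es x U (j + 1) *
            (1 - ((j + 1 : ℕ) : ℝ) * (1 / U.card))) :=
            mul_le_mul_of_nonneg_left h4 (by positivity)
        _ = (X * (1 - ((j + 1 : ℕ) : ℝ) * (1 / U.card))) *
            (((j + 1).factorial : ℝ) * es x U (j + 1)) := by ring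
        _ ≤ (X * (1 - ((j + 1 : ℕ) : ℝ) * (1 / U.card))) *
            (fp (j + 1) (1 / (U.card : ℝ)) * X ^ (j + 1)) :=
            mul_le_mul_of_nonneg_left ih (mul_nonneg hX h5)
        _ = _ := by ring
    · have h1 : es x U (j + 2) = 0 := by
        unfold es
        rw [powersetCard_eq_empty.mpr (by omega)]
        simp
      rw [h1, hfp0 (j + 2) (by omega)]
      simp
  rcases r with _ | r
  · simp [es_zero, fp_zero]
  · induction r with
    | zero => simp [es_one, fp]
    | succ r ih => exact step r ih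

end Pool.Agent.W310.PH
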